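import Pool.Agent.helper68.SF.SpecJ

/-!
Project SF (MP_d52931_gt), block sj, module BW: bases and mediants of words.
-/

set_option autoImplicit false

namespace SF

open Set

theorem BW_inv (w : List Bool) : ∀ x : (ℤ × ℤ) × (ℤ × ℤ), 0 ≤ x.1.1 → 0 ≤ x.1.2 → 0 ≤ x.2.1 →
    0 ≤ x.2.2 → dt x.1 x.2 = 1 → 0 ≤ (bs w x).1.1 ∧ 0 ≤ (bs w x).1.2 ∧ 0 ≤ (bs w x).2.1 ∧
      0 ≤ (bs w x).2.2 ∧ dt (bs w x).1 (bs w x).2 = 1 := by
  induction w with
  | nil => exact fun x h1 h2 h3 h4 h5 => ⟨h1, h2, h3, h4, h5⟩
  | cons b w ih =>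
    intro x h1 h2 h3 h4 h5
    cases b with
    | true =>
      refine ih (x.1, x.1 + x.2) h1 h2 (add_nonneg h1 h3) (add_nonneg h2 h4) ?_
      unfold dt at h5 ⊢
      simp only [Prod.fst_add, Prod.snd_add]
      linarith
    | false =>
      refine ih (x.1 + x.2, x.2) (add_nonneg h1 h3) (add_nonneg h2 h4) h3 h4 ?_
      unfold dt at h5 ⊢
      simp only [Prod.fst_add, Prod.snd_add]
      linarith

theorem BW_app (w w' : List Bool) : ∀ x, bs (w ++ w') x = bs w' (bs w x) := by
  induction w with
  | nil => exact fun x => rfl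
  | cons b w ih =>
    intro x
    cases b with
    | true => exact ih _
    | false => exact ih _

theorem BW_lin (u v : ℤ × ℤ) (w : List Bool) : ∀ p q : ℤ × ℤ,
    bs w (p.1 • u + p.2 • v, q.1 • u + q.2 • v) =
      ((bs w (p, q)).1.1 • u + (bs w (p, q)).1.2 • v,
        (bs w (p, q)).2.1 • u + (bs w (p, q)).2.2 • v) := by
  induction w with
  | nil => exact fun p q => rfl
  | cons b w ih =>
    intro p q
    have h1 : p.1 • u + p.2 • v + (q.1 • u + q.2 • v) = (p + q).1 • u + (p + q).2 • v := by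
      rw [Prod.fst_add, Prod.snd_add, add_smul, add_smul]
      abel
    cases b with
    | true =>
      show bs w (p.1 • u + p.2 • v, p.1 • u + p.2 • v + (q.1 • u + q.2 • v)) = _
      rw [h1]
      exact ih p (p + q)
    | false =>
      show bs w (p.1 • u + p.2 • v + (q.1 • u + q.2 • v), q.1 • u + q.2 • v) = _
      rw [h1]
      exact ih (p + q) q

theorem BW_md (w w' : List Bool) :
    md (w ++ w') = (md w').1 • (bw w).1 + (md w').2 • (bw w).2 := by
  have h1 : bw (w ++ w') = ((bw w').1.1 • (bw w).1 + (bw w').1.2 • (bw w).2,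
      (bw w').2.1 • (bw w).1 + (bw w').2.2 • (bw w).2) := by
    have h2 := BW_lin (bw w).1 (bw w).2 w' (1, 0) (0, 1)
    simp only [one_smul, zero_smul, add_zero, zero_add] at h2
    unfold bw at h2 ⊢
    rw [BW_app]
    exact h2
  unfold md
  rw [h1, Prod.fst_add, Prod.snd_add, add_smul, add_smul]
  simp only
  abel

theorem BW_true (w : List Bool) : md (true :: w) = ((md w).1 + (md w).2, (md w).2) := by
  have h1 := BW_md [true] w
  have h2 : bw [true] = ((1, 0), (1, 1)) := by
    unfold bw bs bs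
    simp
  rw [h2] at h1
  have h3 : true :: w = [true] ++ w := rfl
  rw [h3, h1]
  ext <;> simp

theorem BW_false (w : List Bool) : md (false :: w) = ((md w).1, (md w).1 + (md w).2) := by
  have h1 := BW_md [false] w
  have h2 : bw [false] = ((1, 1), (0, 1)) := by
    unfold bw bs bs
    simp
  rw [h2] at h1
  have h3 : false :: w = [false] ++ w := rfl
  rw [h3, h1]
  ext <;> simp

theorem BW_nil : md [] = (1, 1) := by
  unfold md bw bs
  simp

theorem BW_one (w : List Bool) : 0 ≤ (bw w).1.1 ∧ 0 ≤ (bw w).1.2 ∧ 0 ≤ (bw w).2.1 ∧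
    0 ≤ (bw w).2.2 ∧ dt (bw w).1 (bw w).2 = 1 ∧ 0 < (md w).1 ∧ 0 < (md w).2 := by
  obtain ⟨h1, h2, h3, h4, h5⟩ := BW_inv w ((1, 0), (0, 1)) (by norm_num) (by norm_num)
    (by norm_num) (by norm_num) (by simp [dt])
  refine ⟨h1, h2, h3, h4, h5, ?_, ?_⟩
  · show 0 < (bs w ((1, 0), (0, 1))).1.1 + (bs w ((1, 0), (0, 1))).2.1
    unfold dt at h5
    rcases h1.lt_or_eq with h | h
    · linarith
    · rcases h3.lt_or_eq with h' | h'
      · linarith
      · rw [← h, ← h'] at h5
        norm_num at h5
  · show 0 < (bs w ((1, 0), (0, 1))).1.2 + (bs w ((1, 0), (0, 1))).2.2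
    unfold dt at h5
    rcases h2.lt_or_eq with h | h
    · linarith
    · rcases h4.lt_or_eq with h' | h'
      · linarith
      · rw [← h, ← h'] at h5
        norm_num at h5

theorem BW_prim (w : List Bool) : md w ∈ Pv := by
  obtain ⟨-, -, -, -, h5, -, -⟩ := BW_one w
  show Int.gcd (md w).1 (md w).2 = 1
  rw [← Int.isCoprime_iff_gcd_eq_one]
  refine ⟨-(bw w).1.2, (bw w).1.1, ?_⟩
  unfold md
  unfold dt at h5
  rw [Prod.fst_add, Prod.snd_add]
  linarith

theorem BW_inj : ∀ w w' : List Bool, md w = md w' → w = w' := by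
  intro w
  induction w with
  | nil =>
    intro w' h
    cases w' with
    | nil => rfl
    | cons b w' =>
      exfalso
      obtain ⟨-, -, -, -, -, h1, h2⟩ := BW_one w'
      cases b with
      | true =>
        rw [BW_nil, BW_true, Prod.mk.injEq] at h
        omega
      | false =>
        rw [BW_nil, BW_false, Prod.mk.injEq] at h
        omega
  | cons b w ih =>
    intro w' h
    obtain ⟨-, -, -, -, -, h1, h2⟩ := BW_one w
    cases w' with
    | nil =>
      exfalso
      cases b with
      | true =>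
        rw [BW_nil, BW_true, Prod.mk.injEq] at h
        omega
      | false =>
        rw [BW_nil, BW_false, Prod.mk.injEq] at h
        omega
    | cons b' w' =>
      obtain ⟨-, -, -, -, -, h3, h4⟩ := BW_one w'
      cases b with
      | true =>
        cases b' with
        | true =>
          rw [BW_true, BW_true, Prod.mk.injEq] at h
          rw [ih w' (Prod.ext (by omega) h.2)]
        | false =>
          exfalso
          rw [BW_true, BW_false, Prod.mk.injEq] at h
          omega
      | false =>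
        cases b' with
        | true =>
          exfalso
          rw [BW_true, BW_false, Prod.mk.injEq] at h
          omega
        | false =>
          rw [BW_false, BW_false, Prod.mk.injEq] at h
          rw [ih w' (Prod.ext h.1 (by omega))]

theorem BW_surj : ∀ (N : ℕ) (v : ℤ × ℤ), v.1 + v.2 ≤ N → v ∈ Pv → 0 < v.1 → 0 < v.2 →
    ∃ w, md w = v := by
  intro N
  induction N with
  | zero =>
    intro v hN _ h1 h2
    push_cast at hN
    omega
  | succ N ih =>
    intro v hN hv h1 h2
    have hv' : IsCoprime v.1 v.2 := Int.isCoprime_iff_gcd_eq_one.2 hv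
    push_cast at hN
    rcases lt_trichotomy v.1 v.2 with h | h | h
    · have hc : ((v.1, v.2 - v.1) : ℤ × ℤ) ∈ Pv := by
        show Int.gcd v.1 (v.2 - v.1) = 1
        rw [← Int.isCoprime_iff_gcd_eq_one]
        obtain ⟨a, b, hab⟩ := hv'
        exact ⟨a + b, b, by linarith⟩
      obtain ⟨w, hw⟩ := ih (v.1, v.2 - v.1) (by
        show v.1 + (v.2 - v.1) ≤ (N : ℤ)
        omega) hc h1 (by
        show 0 < v.2 - v.1
        omega)
      refine ⟨false :: w, ?_⟩
      rw [BW_false, hw]
      ext
      · rfl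
      · show v.1 + (v.2 - v.1) = v.2
        ring
    · refine ⟨[], ?_⟩
      rw [BW_nil]
      have h3 : v.1 = 1 := by
        obtain ⟨a, b, hab⟩ := hv'
        rw [← h] at hab
        have h4 : v.1 ∣ 1 := ⟨a + b, by linarith⟩
        exact Int.eq_one_of_dvd_one h1.le h4
      ext
      · exact h3.symm
      · show 1 = v.2
        omega
    · have hc : ((v.1 - v.2, v.2) : ℤ × ℤ) ∈ Pv := by
        show Int.gcd (v.1 - v.2) v.2 = 1
        rw [← Int.isCoprime_iff_gcd_eq_one]
        obtain ⟨a, b, hab⟩ := hv'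
        exact ⟨a, a + b, by linarith⟩
      obtain ⟨w, hw⟩ := ih (v.1 - v.2, v.2) (by
        show v.1 - v.2 + v.2 ≤ (N : ℤ)
        omega) hc (by
        show 0 < v.1 - v.2
        omega) h2
      refine ⟨true :: w, ?_⟩
      rw [BW_true, hw]
      ext
      · show v.1 - v.2 + v.2 = v.1
        ring
      · rfl

theorem BW : BW_stmt := by
  refine ⟨BW_one, BW_md, ?_, ?_, ?_⟩
  · intro w _
    obtain ⟨-, -, -, -, -, h1, h2⟩ := BW_one w
    exact ⟨BW_prim w, h1, h2⟩
  · intro w _ w' _ h
    exact BW_inj w w' h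
  · rintro v ⟨hv, h1, h2⟩
    obtain ⟨w, hw⟩ := BW_surj (v.1 + v.2).toNat v (by omega) hv h1 h2
    exact ⟨w, mem_univ _, hw⟩

end SF
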