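import Pool.Agent.helper68.SF.SpecE

/-!
Project SF (MP_d52931_gt), block se, module DI: integrability on `Dm`.
-/

set_option autoImplicit false

namespace SF

open MeasureTheory

theorem DI_open : IsOpen Dm := by
  have h1 : IsOpen {p : ℝ × ℝ | 0 < p.1} := isOpen_lt continuous_const continuous_fst
  have h2 : IsOpen {p : ℝ × ℝ | p.1 < 1 / 2} := isOpen_lt continuous_fst continuous_const
  have h3 : IsOpen {p : ℝ × ℝ | 0 < p.2} := isOpen_lt continuous_const continuous_snd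
  have h4 : IsOpen {p : ℝ × ℝ | 1 < p.1 ^ 2 + p.2 ^ 2} := isOpen_lt continuous_const (by fun_prop)
  exact h1.inter (h2.inter (h3.inter h4))

theorem DI_half {p : ℝ × ℝ} (hp : p ∈ Dm) : 1 / 2 < p.2 := by
  obtain ⟨h1, h2, h3, h4⟩ := hp
  nlinarith

theorem DI : DI_stmt := by
  intro F C hF hC
  have hmeas : MeasurableSet Dm := DI_open.measurableSet
  have hm2 : MeasurableSet {p : ℝ × ℝ | 1 ≤ p.2} := (isClosed_le continuous_const
    continuous_snd).measurableSet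
  have hm3 : MeasurableSet {p : ℝ × ℝ | p.2 ≤ 1} := (isClosed_le continuous_snd
    continuous_const).measurableSet
  have hcover : Dm ⊆ (Dm ∩ {p | p.2 ≤ 1}) ∪ (Dm ∩ {p | 1 ≤ p.2}) := by
    intro p hp
    rcases le_total p.2 1 with h | h
    · exact Or.inl ⟨hp, h⟩
    · exact Or.inr ⟨hp, h⟩
  refine IntegrableOn.mono_set (IntegrableOn.union ?_ ?_) hcover
  · have hK : IsCompact (Set.Icc (0 : ℝ) (1 / 2) ×ˢ Set.Icc (1 / 2 : ℝ) 1) :=
      isCompact_Icc.prod isCompact_Icc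
    have hsub : Set.Icc (0 : ℝ) (1 / 2) ×ˢ Set.Icc (1 / 2 : ℝ) 1 ⊆ {p : ℝ × ℝ | 0 < p.2} := by
      intro p hp
      exact lt_of_lt_of_le (by norm_num) hp.2.1
    refine ((hF.mono hsub).integrableOn_compact hK).mono_set ?_
    intro p hp
    exact ⟨⟨hp.1.1.le, hp.1.2.1.le⟩, ⟨(DI_half hp.1).le, hp.2⟩⟩
  · have hg1 : IntegrableOn (fun _ : ℝ => (1 : ℝ)) (Set.Ioo 0 (1 / 2)) :=
      (continuous_const.integrableOn_Icc (a := 0) (b := 1 / 2)).mono_set Set.Ioo_subset_Icc_self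
    have hg2 : IntegrableOn (fun t : ℝ => |C| * t ^ (-2 : ℝ)) (Set.Ioi (1 / 2)) :=
      (integrableOn_Ioi_rpow_of_lt (by norm_num) (by norm_num)).const_mul _
    have hg : IntegrableOn (fun p : ℝ × ℝ => 1 * (|C| * p.2 ^ (-2 : ℝ)))
        (Set.Ioo 0 (1 / 2) ×ˢ Set.Ioi (1 / 2)) := by
      have h1 := Integrable.mul_prod hg1 hg2
      rw [Measure.prod_restrict] at h1
      exact h1
    have hsub : Dm ∩ {p : ℝ × ℝ | 1 ≤ p.2} ⊆ Set.Ioo (0 : ℝ) (1 / 2) ×ˢ Set.Ioi (1 / 2 : ℝ) := by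
      intro p hp
      exact ⟨⟨hp.1.1, hp.1.2.1⟩, DI_half hp.1⟩
    have hpos : Dm ∩ {p : ℝ × ℝ | 1 ≤ p.2} ⊆ {p : ℝ × ℝ | 0 < p.2} := fun p hp => hp.1.2.2.1
    refine Integrable.mono' (hg.mono_set hsub)
      ((hF.mono hpos).aestronglyMeasurable (hmeas.inter hm2)) ?_
    refine (ae_restrict_iff' (hmeas.inter hm2)).2 (Filter.Eventually.of_forall fun p hp => ?_)
    rw [Real.norm_eq_abs]
    have hp2 : 0 < p.2 := hpos hp
    refine (hC p hp.1 hp.2).trans ?_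
    rw [one_mul, Real.rpow_neg hp2.le, ← div_eq_mul_inv]
    have h2 : p.2 ^ (2 : ℝ) = p.2 ^ 2 := by
      exact_mod_cast Real.rpow_natCast p.2 2
    rw [h2]
    exact div_le_div_of_nonneg_right (le_abs_self C) (by positivity)

end SF
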