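import Pool.Agent.helper68.SF.SpecJ

/-!
Project SF (MP_d52931_gt), block sj, module J5: the three-term relation of the cone function.
-/

set_option autoImplicit false

namespace SF

theorem J5 (h4 : J4_stmt) (h5A : J5A_stmt) (hN : JN_stmt) : J5_stmt := by
  intro g hg l l' hl hl'
  obtain ⟨C4, hC4⟩ := h4 g hg
  obtain ⟨C5, hC5⟩ := h5A g hg
  have hll : 0 < l + l' := by linarith
  obtain ⟨K, hK⟩ : ∃ K : ℝ, K = |3 * C4 + C5| + 1 := ⟨_, rfl⟩
  have hK0 : 0 < K := by rw [hK]; positivity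
  have hK1 : 3 * C4 + C5 ≤ K := by
    rw [hK]
    linarith [le_abs_self (3 * C4 + C5)]
  obtain ⟨S, hS⟩ : ∃ S : ℝ, S = (1 / l + 1 / l') + (1 / l + 1 / (l + l')) + (1 / (l + l') + 1 / l') :=
    ⟨_, rfl⟩
  have hS0 : 0 < S := by rw [hS]; positivity
  have key : ∀ η : ℝ, 0 < η → |jj g l l' - (jj g l (l + l') + jj g (l + l') l')| ≤ η := by
    intro η hη
    obtain ⟨δ, hδ⟩ : ∃ δ : ℝ, δ = min (1 / (18 * (l + l'))) (η / (2 * K)) := ⟨_, rfl⟩
    have hδ0 : 0 < δ := by rw [hδ]; exact lt_min (by positivity) (by positivity)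
    obtain ⟨h, hT, hh⟩ := hN g hg (η / (2 * S)) (-Real.log δ) (by positivity)
    obtain ⟨e, he⟩ : ∃ e : ℝ, e = Real.exp (-h) := ⟨_, rfl⟩
    have he0 : 0 < e := by rw [he]; exact Real.exp_pos _
    have heδ : e ≤ δ := by
      rw [he]
      calc Real.exp (-h) ≤ Real.exp (Real.log δ) := Real.exp_le_exp.2 (by linarith)
        _ = δ := Real.exp_log hδ0
    have he1 : e * (l + l') ≤ 1 / 18 := by
      have h1 : e ≤ 1 / (18 * (l + l')) := heδ.trans (by rw [hδ]; exact min_le_left _ _)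
      calc e * (l + l') ≤ 1 / (18 * (l + l')) * (l + l') := by gcongr
        _ = 1 / 18 := by field_simp
    have he2 : e * K ≤ η / 2 := by
      have h1 : e ≤ η / (2 * K) := heδ.trans (by rw [hδ]; exact min_le_right _ _)
      calc e * K ≤ η / (2 * K) * K := by gcongr
        _ = η / 2 := by field_simp
    have a1 := hh l l' hl hl'
    have a2 := hh l (l + l') hl hll
    have a3 := hh (l + l') l' hll hl'
    rw [← he] at a1 a2 a3
    have hel : 0 < e * l := by positivity
    have hel' : 0 < e * l' := by positivity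
    have hell : 0 < e * (l + l') := by positivity
    have b1 := hC4 (e * l) (e * l') hel hel' (by
      have : e * l + e * l' = e * (l + l') := by ring
      linarith)
    have b2 := hC4 (e * l) (e * (l + l')) hel hell (by
      have : e * (l + l') = e * l + e * l' := by ring
      linarith)
    have b3 := hC4 (e * (l + l')) (e * l') hell hel' (by
      have : e * (l + l') = e * l + e * l' := by ring
      linarith)
    have b4 := hC5 (e * l) (e * l') hel hel'
    rw [show e * l + e * l' = e * (l + l') by ring] at b4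
    obtain ⟨x1, hx1⟩ : ∃ x, x = jj g l l' := ⟨_, rfl⟩
    obtain ⟨x2, hx2⟩ : ∃ x, x = jj g l (l + l') := ⟨_, rfl⟩
    obtain ⟨x3, hx3⟩ : ∃ x, x = jj g (l + l') l' := ⟨_, rfl⟩
    obtain ⟨y1, hy1⟩ : ∃ x, x = jj g (e * l) (e * l') := ⟨_, rfl⟩
    obtain ⟨y2, hy2⟩ : ∃ x, x = jj g (e * l) (e * (l + l')) := ⟨_, rfl⟩
    obtain ⟨y3, hy3⟩ : ∃ x, x = jj g (e * (l + l')) (e * l') := ⟨_, rfl⟩
    rw [← hx1, ← hy1] at a1
    rw [← hx2, ← hy2] at a2
    rw [← hx3, ← hy3] at a3
    rw [← hy1] at b1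
    rw [← hy2] at b2
    rw [← hy3] at b3
    rw [← hx1, ← hx2, ← hx3]
    have hD : |y1 - (y2 + y3)| ≤ 3 * C4 + C5 := by
      rw [abs_le] at b1 b2 b3 b4 ⊢
      constructor <;> linarith [b1.1, b1.2, b2.1, b2.2, b3.1, b3.2, b4.1, b4.2]
    have hD2 : |e * (y1 - (y2 + y3))| ≤ η / 2 := by
      rw [abs_mul, abs_of_pos he0]
      calc e * |y1 - (y2 + y3)| ≤ e * K := by
            apply mul_le_mul_of_nonneg_left (hD.trans hK1) he0.le
        _ ≤ η / 2 := he2
    have hsum : η / (2 * S) * (1 / l + 1 / l') + η / (2 * S) * (1 / l + 1 / (l + l')) +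
        η / (2 * S) * (1 / (l + l') + 1 / l') = η / 2 := by
      calc _ = η / (2 * S) * S := by rw [hS]; ring
        _ = η / 2 := by field_simp
    rw [abs_le] at a1 a2 a3 hD2 ⊢
    constructor <;> nlinarith [a1.1, a1.2, a2.1, a2.2, a3.1, a3.2, hD2.1, hD2.2, hsum]
  have h0 : |jj g l l' - (jj g l (l + l') + jj g (l + l') l')| ≤ 0 :=
    le_of_forall_pos_le_add fun η hη => by
      rw [zero_add]
      exact key η hη
  have h1 : jj g l l' - (jj g l (l + l') + jj g (l + l') l') = 0 := abs_nonpos_iff.1 h0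
  linarith

end SF
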