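import Pool.Agent.helper68.SF.SpecW

/-!
Project SF (MP_d52931_gt), block sw, module B01: `β₀`, `β₁`.
-/

set_option autoImplicit false

namespace SF

open scoped ContDiff

theorem B01_t (h : ℝ → ℝ) (hh : Differentiable ℝ h) (s y : ℝ) :
    HasDerivAt (fun t => b0 h t y) (b0 (DD h) s y) s := by
  unfold b0 DD
  have h1 : HasDerivAt (fun t : ℝ => Real.exp (2 * t) * y) (Real.exp (2 * s) * 2 * y) s := by
    have h2 : HasDerivAt (fun t : ℝ => 2 * t) 2 s := by
      simpa using (hasDerivAt_id s).const_mul 2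
    exact (h2.exp).mul_const y
  have h3 : HasDerivAt h (deriv h (Real.exp (2 * s) * y)) (Real.exp (2 * s) * y) :=
    (hh _).hasDerivAt
  have h4 := (h3.comp s h1).const_mul (√y)
  have h5 : √y * (2 * (Real.exp (2 * s) * y) * deriv h (Real.exp (2 * s) * y)) =
      √y * (deriv h (Real.exp (2 * s) * y) * (Real.exp (2 * s) * 2 * y)) := by ring
  rw [h5]
  exact h4

theorem B01_y (g : ℝ → ℝ) (hg : ContDiff ℝ ∞ g) (E y : ℝ) (hy : 0 < y) :
    HasDerivAt (fun t => √t * g (E * t)) (1 / (2 * √y) * g (E * y) + √y * (deriv g (E * y) * E)) y := by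
  have h1 : HasDerivAt (fun t : ℝ => √t) (1 / (2 * √y)) y := Real.hasDerivAt_sqrt hy.ne'
  have h2 : HasDerivAt (fun t : ℝ => E * t) E y := by
    simpa using (hasDerivAt_id y).const_mul E
  have h3 : HasDerivAt g (deriv g (E * y)) (E * y) :=
    ((hg.differentiable (by simp)) _).hasDerivAt
  exact h1.mul (h3.comp y h2)

theorem B01_yy (g : ℝ → ℝ) (hg : ContDiff ℝ ∞ g) (E y : ℝ) (hy : 0 < y) :
    HasDerivAt (fun t => 1 / (2 * √t) * g (E * t) + √t * (deriv g (E * t) * E))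
      (-(1 / (4 * y * √y)) * g (E * y) + 1 / √y * (deriv g (E * y) * E) +
        √y * (deriv (deriv g) (E * y) * E * E)) y := by
  have hs : 0 < √y := Real.sqrt_pos.2 hy
  have hsq : √y * √y = y := Real.mul_self_sqrt hy.le
  have h1 : HasDerivAt (fun t : ℝ => √t) (1 / (2 * √y)) y := Real.hasDerivAt_sqrt hy.ne'
  have h2 : HasDerivAt (fun t : ℝ => E * t) E y := by
    simpa using (hasDerivAt_id y).const_mul E
  have h3 : HasDerivAt g (deriv g (E * y)) (E * y) :=
    ((hg.differentiable (by simp)) _).hasDerivAt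
  have hg' : ContDiff ℝ ∞ (deriv g) := (contDiff_infty_iff_deriv.1 hg).2
  have h4 : HasDerivAt (deriv g) (deriv (deriv g) (E * y)) (E * y) :=
    ((hg'.differentiable (by simp)) _).hasDerivAt
  have h5 : HasDerivAt (fun t : ℝ => 1 / (2 * √t)) (-(1 / (4 * y * √y))) y := by
    have h6 := (h1.const_mul 2).inv (by positivity)
    have h7 : (fun t : ℝ => 1 / (2 * √t)) = (fun t : ℝ => (2 * √t)⁻¹) := by
      funext t
      rw [one_div]
    rw [h7]
    have h8 : -(1 / (4 * y * √y)) = -(2 * (1 / (2 * √y))) / (2 * √y) ^ 2 := by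
      have h9 : (2 * √y) ^ 2 = 4 * y := by
        rw [mul_pow, Real.sq_sqrt hy.le]
        norm_num
      rw [h9]
      field_simp
    rw [h8]
    exact h6
  have h10 := (h5.mul (h3.comp y h2)).add (h1.mul ((h4.comp y h2).mul_const E))
  have h11 : -(1 / (4 * y * √y)) * g (E * y) + 1 / √y * (deriv g (E * y) * E) +
        √y * (deriv (deriv g) (E * y) * E * E) =
      -(1 / (4 * y * √y)) * g (E * y) + 1 / (2 * √y) * (deriv g (E * y) * E) +
      (1 / (2 * √y) * (deriv g (E * y) * E) + √y * (deriv (deriv g) (E * y) * E * E)) := by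
    field_simp
    ring
  rw [h11]
  exact h10

theorem B01_b1 (g : ℝ → ℝ) (s x y : ℝ) :
    b1 g s x y = b0 g s (y / (25 * (x ^ 2 + y ^ 2))) := by
  unfold b1 b0
  have h0 : 0 ≤ x ^ 2 + y ^ 2 := by positivity
  rw [Real.sqrt_div' _ (by positivity), Real.sqrt_mul (by norm_num) (x ^ 2 + y ^ 2)]
  have h1 : √(25 : ℝ) = 5 := by
    rw [show (25 : ℝ) = 5 ^ 2 by norm_num]
    exact Real.sqrt_sq (by norm_num)
  rw [h1, mul_div_assoc]

theorem B01_Mb (g : ℝ → ℝ) : b1 g = Mb 0 (-1) 25 0 (fun s _ y => b0 g s y) := by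
  funext s x y
  rw [B01_b1]
  unfold Mb
  congr 1
  rw [show (0 * 0 - -1 * 25) * y = 25 * y by ring,
    show (25 * x + 0) ^ 2 + (25 * y) ^ 2 = 25 * (25 * (x ^ 2 + y ^ 2)) by ring]
  rw [mul_div_mul_left _ _ (by norm_num)]

theorem B01_Sm (g : ℝ → ℝ) (hg : ContDiff ℝ ∞ g) : Sm (fun s _ y => b0 g s y) := by
  unfold Sm b0
  refine ContDiffOn.mul ?_ ?_
  · refine ContDiffOn.sqrt ?_ ?_
    · exact (contDiff_snd.comp contDiff_snd).contDiffOn
    · intro p hp
      exact ne_of_gt hp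
  · refine ContDiff.contDiffOn ?_
    refine hg.comp ?_
    exact ((contDiff_const.mul contDiff_fst).exp).mul (contDiff_snd.comp contDiff_snd)

theorem B01_Wv (g : ℝ → ℝ) (hg : ContDiff ℝ ∞ g) : Wv (fun s _ y => b0 g s y) := by
  intro s x y hy
  have hd : Differentiable ℝ g := hg.differentiable (by simp)
  have hg' : ContDiff ℝ ∞ (deriv g) := (contDiff_infty_iff_deriv.1 hg).2
  have hd' : Differentiable ℝ (deriv g) := hg'.differentiable (by simp)
  have hDD : Differentiable ℝ (DD g) := by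
    unfold DD
    exact ((differentiable_const _).mul differentiable_id).mul hd'
  have h1 : dS (dS fun s _ y => b0 g s y) s x y = b0 (DD (DD g)) s y := by
    have h2 : (fun t => dS (fun s _ y => b0 g s y) t x y) = fun t => b0 (DD g) t y := by
      funext t
      exact (B01_t g hd t y).deriv
    unfold dS at h2 ⊢
    rw [h2]
    exact (B01_t (DD g) hDD s y).deriv
  have h3 : dX (dX fun s _ y => b0 g s y) s x y = 0 := by
    unfold dX
    simp
  have h4 : dY (dY fun s _ y => b0 g s y) s x y =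
      -(1 / (4 * y * √y)) * g (Real.exp (2 * s) * y) +
        1 / √y * (deriv g (Real.exp (2 * s) * y) * Real.exp (2 * s)) +
        √y * (deriv (deriv g) (Real.exp (2 * s) * y) * Real.exp (2 * s) * Real.exp (2 * s)) := by
    unfold dY
    refine HasDerivAt.deriv ?_
    refine (B01_yy g hg (Real.exp (2 * s)) y hy).congr_of_eventuallyEq ?_
    filter_upwards [lt_mem_nhds hy] with t ht
    exact (B01_y g hg (Real.exp (2 * s)) t ht).deriv
  have h5 : DD (DD g) = fun a => 4 * a * deriv g a + 4 * a ^ 2 * deriv (deriv g) a := by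
    funext a
    have h6 : HasDerivAt (DD g) (2 * deriv g a + 2 * a * deriv (deriv g) a) a := by
      have h7 : HasDerivAt (fun a : ℝ => 2 * a) 2 a := by
        simpa using (hasDerivAt_id a).const_mul 2
      exact h7.mul (hd' a).hasDerivAt
    show 2 * a * deriv (DD g) a = _
    rw [h6.deriv]
    ring
  rw [h1, h3, h4, h5]
  show √y * (4 * (Real.exp (2 * s) * y) * deriv g (Real.exp (2 * s) * y) +
    4 * (Real.exp (2 * s) * y) ^ 2 * deriv (deriv g) (Real.exp (2 * s) * y)) = _ + √y * g (Real.exp (2 * s) * y)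
  obtain ⟨w, hw, hw0⟩ : ∃ w : ℝ, √y = w ∧ 0 < w := ⟨_, rfl, Real.sqrt_pos.2 hy⟩
  have hyw : y = w ^ 2 := by rw [← hw, Real.sq_sqrt hy.le]
  rw [hw]
  obtain ⟨E, hE⟩ : ∃ E : ℝ, Real.exp (2 * s) = E := ⟨_, rfl⟩
  rw [hE]
  obtain ⟨G0, hG0⟩ : ∃ G0 : ℝ, g (E * y) = G0 := ⟨_, rfl⟩
  obtain ⟨G1, hG1⟩ : ∃ G1 : ℝ, deriv g (E * y) = G1 := ⟨_, rfl⟩
  obtain ⟨G2, hG2⟩ : ∃ G2 : ℝ, deriv (deriv g) (E * y) = G2 := ⟨_, rfl⟩
  rw [hG0, hG1, hG2, hyw]
  field_simp
  ring

theorem B01 (hMOB : MOB_stmt) : B01_stmt := by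
  intro g hg
  have hd : Differentiable ℝ g := hg.smooth.differentiable (by simp)
  have hS := B01_Sm g hg.smooth
  have hW := B01_Wv g hg.smooth
  have hM := hMOB 0 (-1) 25 0 (by norm_num) _ hS hW
  rw [← B01_Mb] at hM
  refine ⟨⟨hS, hW, ?_⟩, hM.1, hM.2, ?_, ?_, ?_⟩
  · intro s x y _
    exact (B01_t g hd s y).deriv
  · intro s x y _
    unfold dS
    have h1 : (fun t => b1 g t x y) = fun t => b0 g t (y / (25 * (x ^ 2 + y ^ 2))) := by
      funext t
      exact B01_b1 g t x y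
    rw [h1, B01_b1]
    exact (B01_t g hd s _).deriv
  · intro s x y
    unfold b1
    rw [neg_sq]
  · intro s x y _
    exact B01_b1 g s x y

end SF
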